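import Pool.Agent.TD.SEP.B
import Pool.Agent.TD.U.Res1

/-!
# Separability (MP_90358a_ag, PAPER2.md SEP): final statements
-/

open scoped Topology NNReal
open MvPolynomial

namespace Pool.Agent.TD

/-- **(SEP)** `K` complete, `L` an extension of the field of fractions `F` of `K[X_σ]` with an
absolute value which is a Gauss norm on `K[X_σ]`, fractions dense in `L`: elements of `L` which are
integral over `F` are separable over `F`. -/
theorem sep {K σ F L : Type} [NormedField K] [IsUltrametricDist K] [CompleteSpace K] [Finite σ]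
    {ρ : σ → ℝ≥0} (hρ : ∀ i, 0 < ρ i) [Field F] [Field L] [Algebra K L]
    [Algebra (MvPolynomial σ K) F] [IsFractionRing (MvPolynomial σ K) F] [Algebra F L]
    (w : Ber K L)
    (hC : ∀ x : K, algebraMap F L (algebraMap (MvPolynomial σ K) F (C x)) = algebraMap K L x)
    (hw : ∀ P : MvPolynomial σ K,
      w.v (algebraMap F L (algebraMap (MvPolynomial σ K) F P)) = (gp ρ).v P)
    (hd : ∀ (x : L) (ε : ℝ), 0 < ε → ∃ b c : MvPolynomial σ K, c ≠ 0 ∧
      w.v (x - algebraMap F L (algebraMap (MvPolynomial σ K) F b) /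
        algebraMap F L (algebraMap (MvPolynomial σ K) F c)) < ε)
    (α : L) (hα : IsIntegral F α) : IsSeparable F α := by
  classical
  obtain ⟨n, ⟨e⟩⟩ := Finite.exists_equiv_fin σ
  have : Fintype σ := Fintype.ofEquiv (Fin n) e.symm
  have : DecidableEq σ := Classical.decEq σ
  obtain ⟨q, hq⟩ := CharP.exists K
  have hFK : Function.Injective ((algebraMap (MvPolynomial σ K) F).comp
      (C : K →+* MvPolynomial σ K)) :=
    (IsFractionRing.injective (MvPolynomial σ K) F).comp (C_injective σ K)
  have hqF : CharP F q := charP_of_injective_ringHom hFK q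
  have hirr := minpoly.irreducible hα
  rcases CharP.char_is_prime_or_zero K q with hprime | h0
  swap
  · -- characteristic zero
    subst h0
    have : CharZero F := CharP.charP_to_charZero F
    exact hirr.separable
  have : Fact q.Prime := ⟨hprime⟩
  rcases Polynomial.separable_or q hirr with h | ⟨-, g, hg, hgα⟩
  · exact h
  exfalso
  obtain ⟨ι, hι⟩ : ∃ ι : MvPolynomial σ K →+* L,
      ∀ P, ι P = algebraMap F L (algebraMap (MvPolynomial σ K) F P) :=
    ⟨(algebraMap F L).comp (algebraMap (MvPolynomial σ K) F), fun _ => rfl⟩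
  have hinj : Function.Injective ι := by
    rw [injective_iff_map_eq_zero]
    intro P hP
    rw [hι] at hP
    have h1 := (map_eq_zero (algebraMap F L)).1 hP
    exact (map_eq_zero_iff _ (IsFractionRing.injective (MvPolynomial σ K) F)).1 h1
  -- powers of α
  have hN : 0 < (minpoly F α).natDegree := minpoly.natDegree_pos hα
  have hdeg : (minpoly F α).natDegree = g.natDegree * q := by
    rw [← hgα, Polynomial.natDegree_expand]
  have hg0 : 0 < g.natDegree := by
    rcases Nat.eq_zero_or_pos g.natDegree with h0 | h0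
    · rw [h0, zero_mul] at hdeg; omega
    · exact h0
  have hlt : g.natDegree < (minpoly F α).natDegree := by
    rw [hdeg]
    have := hprime.two_le
    nlinarith
  -- linear independence over the polynomials
  letI algRL : Algebra (MvPolynomial σ K) L := ι.toAlgebra
  have hsmul : ∀ (P : MvPolynomial σ K) (x : L), P • x = ι P * x := fun P x => rfl
  have : IsScalarTower (MvPolynomial σ K) F L := by
    refine IsScalarTower.of_algebraMap_eq fun P => ?_
    show ι P = _
    rw [hι]
  have hliF := linearIndependent_pow (K := F) α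
  have hliR := (LinearIndependent.iff_fractionRing (MvPolynomial σ K) F).2 hliF
  rw [Fintype.linearIndependent_iff] at hliR
  have hD := sepD q hρ w ι (fun x => by rw [hι]; exact hC x) (fun P => by rw [hι]; exact hw P)
    (fun x ε hε => by
      obtain ⟨b, c, hc, h⟩ := hd x ε hε
      exact ⟨b, c, hc, by rw [hι, hι]; exact h⟩)
    (fun j : Fin (minpoly F α).natDegree => α ^ (j : ℕ))
    (fun f hf => hliR f (by simpa only [hsmul] using hf))
  have hliR' : LinearIndependent (MvPolynomial σ K)
      (fun j : Fin (minpoly F α).natDegree => (α ^ (j : ℕ)) ^ q) := by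
    rw [Fintype.linearIndependent_iff]
    intro f hf
    exact hD f (by simpa only [hsmul] using hf)
  have hliF' := (LinearIndependent.iff_fractionRing (MvPolynomial σ K) F).1 hliR'
  rw [Fintype.linearIndependent_iff] at hliF'
  -- the relation `g(α^q) = 0`
  have hrel : ∑ j : Fin (minpoly F α).natDegree, g.coeff j • (α ^ (j : ℕ)) ^ q = 0 := by
    have h1 : Polynomial.aeval α (minpoly F α) = 0 := minpoly.aeval F α
    rw [← hgα, Polynomial.expand_aeval,
      Polynomial.aeval_eq_sum_range' (n := (minpoly F α).natDegree) hlt,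
      Finset.sum_range] at h1
    rw [← h1]
    apply Finset.sum_congr rfl
    intro j _
    rw [← pow_mul, ← pow_mul, mul_comm]
  have hz := hliF' (fun j => g.coeff j) hrel ⟨g.natDegree, hlt⟩
  have hg1 : g ≠ 0 := hg.ne_zero
  exact hg1 (Polynomial.leadingCoeff_eq_zero.1 hz)

/-- **(SEP)** in the form used in PAPER2.md, ND1: `A` a domain, `z` a point of `M(A)` with kernel
zero, `φ : K[X_σ] → A` such that `z` restricts to a Gauss point and fractions of polynomials are
dense. -/
theorem sep_domain {K σ A F F' : Type} [NormedField K] [IsUltrametricDist K] [CompleteSpace K]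
    [Finite σ] {ρ : σ → ℝ≥0} (hρ : ∀ i, 0 < ρ i) [CommRing A] [IsDomain A] [Algebra K A]
    (z : Ber K A) (hz : ∀ a, z.v a = 0 → a = 0) (φ : MvPolynomial σ K →ₐ[K] A)
    (hφ : IsGp ρ (Ber.res φ z)) (hd : Dens φ z)
    [Field F] [Field F'] [Algebra (MvPolynomial σ K) F] [IsFractionRing (MvPolynomial σ K) F]
    [Algebra A F'] [IsFractionRing A F'] [Algebra F F']
    (hcomp : ∀ P : MvPolynomial σ K,
      algebraMap F F' (algebraMap (MvPolynomial σ K) F P) = algebraMap A F' (φ P))
    (α : F') (hα : IsIntegral F α) : IsSeparable F α := by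
  obtain ⟨k, _, _, ι, hres⟩ := exists_resF z
  have hιinj : Function.Injective ι := by
    rw [injective_iff_map_eq_zero]
    intro a ha
    apply hz
    rw [← hres.norm, ha, norm_zero]
  obtain ⟨j, hj⟩ : ∃ j : F' →+* k, ∀ a, j (algebraMap A F' a) = ι a :=
    ⟨IsFractionRing.lift hιinj, fun a => IsFractionRing.lift_algebraMap hιinj a⟩
  letI algKF' : Algebra K F' := ((algebraMap A F').comp (algebraMap K A)).toAlgebra
  have hjK : ∀ c : K, ‖j (algebraMap K F' c)‖ = ‖c‖ := by
    intro c
    show ‖j (algebraMap A F' (algebraMap K A c))‖ = _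
    rw [hj, hres.norm, z.ext]
  let w : Ber K F' :=
    { v := fun x => ‖j x‖
      nonneg := fun x => norm_nonneg _
      one := by rw [map_one, norm_one]
      mul := fun a b => by rw [map_mul, norm_mul]
      add := fun a b => by rw [map_add]; exact IsUltrametricDist.norm_add_le_max _ _
      ext := hjK }
  have hwA : ∀ a : A, w.v (algebraMap A F' a) = z.v a := by
    intro a
    show ‖j (algebraMap A F' a)‖ = _
    rw [hj, hres.norm]
  refine sep hρ w ?_ ?_ ?_ α hα
  · intro x
    rw [hcomp]
    show _ = algebraMap A F' (algebraMap K A x)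
    congr 1
    exact φ.commutes x
  · intro P
    rw [hcomp, hwA]
    exact hφ P
  · intro x ε hε
    -- `x = a / s`
    obtain ⟨a, s, hs, rfl⟩ := IsFractionRing.div_surjective (A := A) x
    have hs0 : s ≠ 0 := nonZeroDivisors.ne_zero hs
    have hzs : 0 < z.v s := lt_of_le_of_ne (z.nonneg s) fun h => hs0 (hz s h.symm)
    obtain ⟨M, hM⟩ : ∃ M : ℝ, M = max (z.v a) 1 := ⟨_, rfl⟩
    have hM0 : 0 < M := by rw [hM]; exact lt_of_lt_of_le one_pos (le_max_right _ _)
    -- approximate `s` and `a`
    obtain ⟨ε1, hε1, h1a, h1b⟩ : ∃ ε1 : ℝ, 0 < ε1 ∧ ε1 ≤ z.v s ∧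
        ε1 * M < ε * z.v s * z.v s := by
      refine ⟨min (z.v s) (ε * z.v s * z.v s / (2 * M)), lt_min hzs (by positivity),
        min_le_left _ _, ?_⟩
      calc min (z.v s) (ε * z.v s * z.v s / (2 * M)) * M
          ≤ (ε * z.v s * z.v s / (2 * M)) * M :=
            mul_le_mul_of_nonneg_right (min_le_right _ _) hM0.le
        _ = ε * z.v s * z.v s / 2 := by field_simp
        _ < ε * z.v s * z.v s := by
            have : 0 < ε * z.v s * z.v s := by positivity
            linarith
    obtain ⟨ε2, hε2, h2⟩ : ∃ ε2 : ℝ, 0 < ε2 ∧ ε2 < ε * z.v s := ⟨ε * z.v s / 2, by positivity, by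
      have : 0 < ε * z.v s := by positivity
      linarith⟩
    obtain ⟨b1, c1, hc1, hbc1⟩ := hd s ε1 hε1
    obtain ⟨b2, c2, hc2, hbc2⟩ := hd a ε2 hε2
    -- in the field
    have hval : ∀ P : MvPolynomial σ K,
        w.v (algebraMap F F' (algebraMap (MvPolynomial σ K) F P)) = z.v (φ P) := by
      intro P; rw [hcomp, hwA]
    have hne : ∀ P : MvPolynomial σ K, z.v (φ P) ≠ 0 →
        algebraMap A F' (φ P) ≠ 0 := by
      intro P hP h0
      apply hP
      rw [← hwA, h0, w.zero]
    have hsF : algebraMap A F' s ≠ 0 := by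
      intro h0
      rw [← hwA, h0, w.zero] at hzs
      exact lt_irrefl _ hzs
    -- `|s - b1/c1| < ε1`, `|a - b2/c2| < ε2`
    have key : ∀ (y : A) (b c : MvPolynomial σ K) (t : ℝ), z.v (φ c) ≠ 0 →
        z.v (φ c * y - φ b) < t * z.v (φ c) →
        w.v (algebraMap A F' y - algebraMap A F' (φ b) / algebraMap A F' (φ c)) < t := by
      intro y b c t hc h
      have hc' : 0 < z.v (φ c) := lt_of_le_of_ne (z.nonneg _) (Ne.symm hc)
      have e : algebraMap A F' y - algebraMap A F' (φ b) / algebraMap A F' (φ c) =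
          algebraMap A F' (φ c * y - φ b) / algebraMap A F' (φ c) := by
        rw [map_sub, map_mul]
        field_simp [hne c hc]
      rw [e, w.field_div, hwA, hwA, div_lt_iff₀ hc']
      exact h
    have k1 := key s b1 c1 ε1 hc1 hbc1
    have k2 := key a b2 c2 ε2 hc2 hbc2
    -- `b1 ≠ 0`
    obtain ⟨x1, hx1⟩ : ∃ x1 : F', x1 = algebraMap A F' (φ b1) / algebraMap A F' (φ c1) :=
      ⟨_, rfl⟩
    obtain ⟨x2, hx2⟩ : ∃ x2 : F', x2 = algebraMap A F' (φ b2) / algebraMap A F' (φ c2) :=
      ⟨_, rfl⟩
    rw [← hx1] at k1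
    rw [← hx2] at k2
    have hx1v : w.v x1 = z.v s := by
      have := w.sub_eq (a := algebraMap A F' s) (b := x1) (by rw [hwA]; exact k1.trans_le h1a)
      rw [this, hwA]
    have hx10 : x1 ≠ 0 := by
      rintro rfl
      rw [w.zero] at hx1v
      exact hzs.ne hx1v
    have hb1 : algebraMap A F' (φ b1) ≠ 0 := by
      intro h0
      apply hx10
      rw [hx1, h0, zero_div]
    refine ⟨b2 * c1, c2 * b1, ?_, ?_⟩
    · intro h0
      rcases mul_eq_zero.1 h0 with h | h
      · rw [h, map_zero, z.zero] at hc2; exact hc2 rfl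
      · rw [h, map_zero, map_zero] at hb1; exact hb1 rfl
    · rw [hcomp, hcomp, map_mul, map_mul, map_mul, map_mul]
      have e : algebraMap A F' (φ b2) * algebraMap A F' (φ c1) /
          (algebraMap A F' (φ c2) * algebraMap A F' (φ b1)) = x2 / x1 := by
        rw [hx1, hx2]
        field_simp [hne c1 hc1, hne c2 hc2, hb1]
      rw [e]
      have e2 : algebraMap A F' a / algebraMap A F' s - x2 / x1 =
          (algebraMap A F' a - x2) / x1 -
            algebraMap A F' a * (algebraMap A F' s - x1) / (algebraMap A F' s * x1) := by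
        field_simp
        ring
      rw [e2]
      refine (w.sub _ _).trans_lt (max_lt ?_ ?_)
      · rw [w.field_div, hx1v, div_lt_iff₀ hzs]
        exact k2.trans h2
      · rw [w.field_div, w.mul, w.mul, hx1v, hwA, hwA, div_lt_iff₀ (mul_pos hzs hzs)]
        calc z.v a * w.v (algebraMap A F' s - x1) ≤ M * ε1 := by
              refine mul_le_mul ?_ k1.le (w.nonneg _) hM0.le
              rw [hM]; exact le_max_left _ _
          _ = ε1 * M := mul_comm _ _
          _ < ε * z.v s * z.v s := h1b
          _ = ε * (z.v s * z.v s) := by ring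

end Pool.Agent.TD
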