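import Mathlib

/-!
# Linear independence over `K^p` in a complete field (MP_90358a_ag, PAPER2.md SEP, (A))
-/

open scoped Topology

namespace Pool.Agent.TD

variable {K : Type} [NormedField K] [IsUltrametricDist K]

theorem norm_sub_le_max' (x y : K) : ‖x - y‖ ≤ max ‖x‖ ‖y‖ := by
  have h := IsUltrametricDist.norm_add_le_max x (-y)
  rwa [norm_neg, ← sub_eq_add_neg] at h

/-- `c` is linearly independent over `K^p`. -/
def IndP (p : ℕ) {n : ℕ} (c : Fin n → K) : Prop :=
  ∀ a : Fin n → K, ∑ i, c i * a i ^ p = 0 → ∀ i, a i = 0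

/-- (A) the norms of combinations are bounded from below. -/
theorem sepA (p : ℕ) [hp : Fact p.Prime] [CharP K p] [CompleteSpace K] (n : ℕ) (c : Fin n → K)
    (hc : IndP p c) :
    ∃ δ : ℝ, 0 < δ ∧ ∀ (a : Fin n → K) (i : Fin n), δ * ‖a i‖ ^ p ≤ ‖∑ j, c j * a j ^ p‖ := by
  have hp0 : 0 < p := hp.out.pos
  induction n with
  | zero => exact ⟨1, one_pos, fun a i => i.elim0⟩
  | succ n ih =>
    -- the last coordinates
    obtain ⟨δ, hδ, h⟩ := ih (fun i => c i.succ) (by
      intro a ha i
      have h1 := hc (Fin.cons 0 a) (by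
        rw [Fin.sum_univ_succ]
        simp only [Fin.cons_zero, Fin.cons_succ, zero_pow hp0.ne', mul_zero, zero_add]
        exact ha) i.succ
      rwa [Fin.cons_succ] at h1)
    -- the distance to the span
    have hd : ∃ d : ℝ, 0 < d ∧ ∀ a : Fin n → K, d ≤ ‖c 0 + ∑ j, c j.succ * a j ^ p‖ := by
      by_contra hcon
      push Not at hcon
      have hseq : ∀ m : ℕ, ∃ a : Fin n → K, ‖c 0 + ∑ j, c j.succ * a j ^ p‖ < 1 / ((m : ℝ) + 1) :=
        fun m => hcon _ (by positivity)
      choose a ha using hseq
      have hlim0 : Filter.Tendsto (fun m => ‖c 0 + ∑ j, c j.succ * a m j ^ p‖) Filter.atTop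
          (𝓝 0) := by
        refine squeeze_zero (fun m => norm_nonneg _) (fun m => (ha m).le) ?_
        exact tendsto_one_div_add_atTop_nhds_zero_nat
      have hcau : ∀ j, CauchySeq fun m => a m j := by
        intro j
        rw [Metric.cauchySeq_iff]
        intro ε hε
        have hpos : 0 < δ * ε ^ p := by positivity
        obtain ⟨M, hM⟩ := (Metric.tendsto_atTop.1 hlim0) (δ * ε ^ p) hpos
        refine ⟨M, fun m hm k hk => ?_⟩
        have hm' := hM m hm
        have hk' := hM k hk
        rw [Real.dist_eq, sub_zero, abs_of_nonneg (norm_nonneg _)] at hm' hk'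
        rw [dist_eq_norm]
        have h1 := h (fun i => a m i - a k i) j
        have h2 : ∑ i, c i.succ * (a m i - a k i) ^ p =
            (c 0 + ∑ i, c i.succ * a m i ^ p) - (c 0 + ∑ i, c i.succ * a k i ^ p) := by
          rw [add_sub_add_left_eq_sub, ← Finset.sum_sub_distrib]
          apply Finset.sum_congr rfl
          intro i _
          rw [sub_pow_char, mul_sub]
        rw [h2] at h1
        have h3 : δ * ‖a m j - a k j‖ ^ p < δ * ε ^ p :=
          h1.trans_lt ((norm_sub_le_max' _ _).trans_lt (max_lt hm' hk'))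
        have h4 : ‖a m j - a k j‖ ^ p < ε ^ p := lt_of_mul_lt_mul_left h3 hδ.le
        exact lt_of_pow_lt_pow_left₀ p hε.le h4
      choose b hb using fun j => cauchySeq_tendsto_of_complete (hcau j)
      have hlim : Filter.Tendsto (fun m => ‖c 0 + ∑ j, c j.succ * a m j ^ p‖) Filter.atTop
          (𝓝 ‖c 0 + ∑ j, c j.succ * b j ^ p‖) := by
        refine Filter.Tendsto.norm (tendsto_const_nhds.add (tendsto_finsetSum _ fun j _ => ?_))
        exact ((hb j).pow p).const_mul _
      have h0 : ‖c 0 + ∑ j, c j.succ * b j ^ p‖ = 0 := tendsto_nhds_unique hlim hlim0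
      have h1 := hc (Fin.cons 1 b) (by
        rw [Fin.sum_univ_succ]
        simp only [Fin.cons_zero, Fin.cons_succ, one_pow, mul_one]
        exact norm_eq_zero.1 h0) 0
      rw [Fin.cons_zero] at h1
      exact one_ne_zero h1
    obtain ⟨d, hd0, hd⟩ := hd
    obtain ⟨M, hM⟩ : ∃ M, M = max 1 (‖c 0‖ / d) := ⟨_, rfl⟩
    have hM1 : 1 ≤ M := by rw [hM]; exact le_max_left _ _
    have hM0 : 0 < M := one_pos.trans_le hM1
    have hkey0 : ∀ a : Fin (n + 1) → K, d * ‖a 0‖ ^ p ≤ ‖∑ j, c j * a j ^ p‖ := by
      intro a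
      rcases eq_or_ne (a 0) 0 with h0 | h0
      · rw [h0, norm_zero, zero_pow hp0.ne', mul_zero]; exact norm_nonneg _
      · have h1 : ∑ j, c j * a j ^ p = a 0 ^ p *
            (c 0 + ∑ j : Fin n, c j.succ * (a j.succ / a 0) ^ p) := by
          rw [Fin.sum_univ_succ, mul_add, Finset.mul_sum, mul_comm (c 0)]
          congr 1
          apply Finset.sum_congr rfl
          intro j _
          rw [div_pow]
          field_simp
        rw [h1, norm_mul, norm_pow, mul_comm d]
        exact mul_le_mul_of_nonneg_left (hd _) (by positivity)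
    refine ⟨min d (δ / M), lt_min hd0 (div_pos hδ hM0), ?_⟩
    intro a i
    refine Fin.cases ?_ (fun j => ?_) i
    · exact (mul_le_mul_of_nonneg_right (min_le_left _ _) (by positivity)).trans (hkey0 a)
    · have h1 := h (fun i => a i.succ) j
      have h2 : ‖∑ i : Fin n, c i.succ * a i.succ ^ p‖ ≤ M * ‖∑ j, c j * a j ^ p‖ := by
        have h3 : ∑ i : Fin n, c i.succ * a i.succ ^ p =
            (∑ j, c j * a j ^ p) - c 0 * a 0 ^ p := by
          rw [Fin.sum_univ_succ]; ring
        rw [h3]
        refine (norm_sub_le_max' _ _).trans (max_le ?_ ?_)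
        · exact le_mul_of_one_le_left (norm_nonneg _) hM1
        · rw [norm_mul, norm_pow]
          have h4 := hkey0 a
          have h5 : ‖a 0‖ ^ p ≤ ‖∑ j, c j * a j ^ p‖ / d := by
            rw [le_div_iff₀ hd0, mul_comm]; exact h4
          calc ‖c 0‖ * ‖a 0‖ ^ p ≤ ‖c 0‖ * (‖∑ j, c j * a j ^ p‖ / d) :=
                mul_le_mul_of_nonneg_left h5 (norm_nonneg _)
            _ = (‖c 0‖ / d) * ‖∑ j, c j * a j ^ p‖ := by ring
            _ ≤ M * ‖∑ j, c j * a j ^ p‖ := by
                refine mul_le_mul_of_nonneg_right ?_ (norm_nonneg _)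
                rw [hM]; exact le_max_right _ _
      calc min d (δ / M) * ‖a j.succ‖ ^ p ≤ (δ / M) * ‖a j.succ‖ ^ p :=
            mul_le_mul_of_nonneg_right (min_le_right _ _) (by positivity)
        _ = (δ * ‖a j.succ‖ ^ p) / M := by ring
        _ ≤ (M * ‖∑ j, c j * a j ^ p‖) / M := by
            exact div_le_div_of_nonneg_right (h1.trans h2) hM0.le
        _ = _ := by field_simp

/-- `K` as a vector space over itself through the Frobenius endomorphism. -/
def FrobK (K : Type) (_ : ℕ) : Type := K

instance (p : ℕ) : AddCommGroup (FrobK K p) := inferInstanceAs (AddCommGroup K)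

noncomputable instance (p : ℕ) [Fact p.Prime] [CharP K p] : Module K (FrobK K p) :=
  Module.compHom K (frobenius K p)

/-- The identity. -/
def ofF (K : Type) [NormedField K] (p : ℕ) : FrobK K p ≃+ K := AddEquiv.refl K

omit [IsUltrametricDist K] in
theorem ofF_smul (p : ℕ) [Fact p.Prime] [CharP K p] (a : K) (x : FrobK K p) :
    ofF K p (a • x) = ofF K p x * a ^ p := by
  show frobenius K p a * ofF K p x = _
  rw [frobenius_def, mul_comm]

omit [IsUltrametricDist K] in
/-- A finite set of elements is contained in the span over `K^p` of independent elements. -/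
theorem exists_basisP (p : ℕ) [hp : Fact p.Prime] [CharP K p] (S : Finset K) :
    ∃ (n : ℕ) (c : Fin n → K), IndP p c ∧ ∀ s ∈ S, ∃ a : Fin n → K, s = ∑ i, c i * a i ^ p := by
  classical
  let V : Submodule K (FrobK K p) := Submodule.span K ((ofF K p).symm '' (S : Set K))
  have hfin : Module.Finite K V := Module.Finite.span_of_finite K (S.finite_toSet.image _)
  let b := Module.finBasis K V
  refine ⟨_, fun i => ofF K p (b i), ?_, ?_⟩
  · intro a ha i
    have hli := b.linearIndependent
    rw [Fintype.linearIndependent_iff] at hli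
    apply hli a
    apply Subtype.ext
    apply (ofF K p).injective
    rw [AddSubmonoidClass.coe_finsetSum, map_sum]
    show _ = ofF K p 0
    rw [map_zero]
    refine (Finset.sum_congr rfl fun j _ => ?_).trans ha
    exact ofF_smul (K := K) p (a j) (b j).1
  · intro s hs
    have hsV : (ofF K p).symm s ∈ V := Submodule.subset_span ⟨s, hs, rfl⟩
    refine ⟨fun i => b.repr ⟨(ofF K p).symm s, hsV⟩ i, ?_⟩
    have h1 := b.sum_repr ⟨(ofF K p).symm s, hsV⟩
    have h2 := congrArg (fun x : V => ofF K p x.1) h1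
    simp only [AddSubmonoidClass.coe_finsetSum, map_sum, AddEquiv.apply_symm_apply] at h2
    refine h2.symm.trans (Finset.sum_congr rfl fun j _ => ?_)
    exact ofF_smul (K := K) p _ (b j).1

end Pool.Agent.TD
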