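import Pool.Agent.TD.SEP.A
import Pool.Agent.TD.GP.Gm
import Pool.Agent.TD.OV.Rel

/-!
# Separability (MP_90358a_ag, PAPER2.md SEP, (B)-(E))
-/

open scoped Topology NNReal
open MvPolynomial

set_option linter.unusedSectionVars false
set_option linter.unusedVariables false

namespace Pool.Agent.TD

section coeff

variable {K σ : Type} [Field K] (p : ℕ) [hp : Fact p.Prime] [CharP K p]

/-- The exponent `a` with values `< p` as a finitely supported function. -/
noncomputable def toE [Finite σ] (a : σ → Fin p) : σ →₀ ℕ :=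
  Finsupp.equivFunOnFinite.symm fun i => (a i : ℕ)

theorem toE_apply [Finite σ] (a : σ → Fin p) (i : σ) : toE p a i = a i := rfl

/-- The coefficients of `C c * X^a * g^p`. -/
theorem coeff_pow_char [Fintype σ] [DecidableEq σ] (a a' : σ → Fin p) (c : K) (g : MvPolynomial σ K)
    (u : σ →₀ ℕ) :
    coeff (toE p a' + p • u) (C c * monomial (toE p a) 1 * g ^ p) =
      if a = a' then c * (coeff u g) ^ p else 0 := by
  classical
  have hp0 : p ≠ 0 := hp.out.ne_zero
  have hgp : g ^ p = (expand p g).map (frobenius K p) := (map_frobenius_expand p).symm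
  rw [mul_assoc, coeff_C_mul, coeff_monomial_mul']
  split_ifs with h1 h2 h2
  · subst h2
    rw [add_tsub_cancel_left, one_mul, hgp, coeff_map, coeff_expand_smul p hp0, frobenius_def]
  · rw [one_mul, hgp, coeff_map]
    -- some coordinate is not divisible by `p`
    have h3 : ∃ i, a i ≠ a' i := by
      by_contra hc
      push Not at hc
      exact h2 (funext hc)
    obtain ⟨i, hi⟩ := h3
    have h4 : ¬ p ∣ (toE p a' + p • u - toE p a) i := by
      rw [Finsupp.tsub_apply, Finsupp.add_apply, Finsupp.smul_apply, toE_apply, toE_apply,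
        smul_eq_mul]
      have h5 := h1 i
      rw [Finsupp.add_apply, Finsupp.smul_apply, toE_apply, toE_apply, smul_eq_mul] at h5
      rintro ⟨q, hq⟩
      apply hi
      apply Fin.ext
      have h6 : (a' i : ℕ) + p * u i = (a i : ℕ) + p * q := by omega
      have h7 : ((a' i : ℕ) + p * u i) % p = ((a i : ℕ) + p * q) % p := by rw [h6]
      rw [Nat.add_mul_mod_self_left, Nat.add_mul_mod_self_left, Nat.mod_eq_of_lt (a' i).2,
        Nat.mod_eq_of_lt (a i).2] at h7
      exact h7.symm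
    rw [coeff_expand_of_not_dvd _ h4, map_zero, mul_zero]
  · exfalso
    apply h1
    subst h2
    exact le_add_right le_rfl
  · rw [mul_zero]

end coeff

section sum

variable {K σ : Type} [Field K] (p : ℕ) [hp : Fact p.Prime] [CharP K p] [Fintype σ]
  [DecidableEq σ]

/-- `∑ C (c l) * X^a * g_{l,a}^p`. -/
noncomputable def fsum {n : ℕ} (c : Fin n → K) (g : Fin n → (σ → Fin p) → MvPolynomial σ K) :
    MvPolynomial σ K :=
  ∑ l, ∑ a, C (c l) * monomial (toE p a) 1 * g l a ^ p

theorem coeff_fsum {n : ℕ} (c : Fin n → K) (g : Fin n → (σ → Fin p) → MvPolynomial σ K)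
    (a : σ → Fin p) (u : σ →₀ ℕ) :
    coeff (toE p a + p • u) (fsum p c g) = ∑ l, c l * (coeff u (g l a)) ^ p := by
  unfold fsum
  rw [coeff_sum]
  apply Finset.sum_congr rfl
  intro l _
  rw [coeff_sum]
  simp only [coeff_pow_char]
  rw [Finset.sum_ite_eq' Finset.univ a fun a' => c l * coeff u (g l a') ^ p,
    if_pos (Finset.mem_univ a)]

theorem exists_div (v : σ →₀ ℕ) : ∃ (a : σ → Fin p) (u : σ →₀ ℕ), v = toE p a + p • u := by
  refine ⟨fun i => ⟨v i % p, Nat.mod_lt _ hp.out.pos⟩,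
    Finsupp.equivFunOnFinite.symm fun i => v i / p, ?_⟩
  ext i
  rw [Finsupp.add_apply, Finsupp.smul_apply, toE_apply, smul_eq_mul]
  exact (Nat.mod_add_div _ _).symm

theorem fsum_add {n : ℕ} (c : Fin n → K) (g g' : Fin n → (σ → Fin p) → MvPolynomial σ K) :
    fsum p c (fun l a => g l a + g' l a) = fsum p c g + fsum p c g' := by
  unfold fsum
  rw [← Finset.sum_add_distrib]
  apply Finset.sum_congr rfl
  intro l _
  rw [← Finset.sum_add_distrib]
  apply Finset.sum_congr rfl
  intro a _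
  rw [add_pow_char, mul_add]

/-- Every polynomial with coefficients in the span is of this form. -/
theorem exists_fsum {n : ℕ} (c : Fin n → K) (f : MvPolynomial σ K)
    (hf : ∀ v ∈ f.support, ∃ b : Fin n → K, coeff v f = ∑ l, c l * b l ^ p) :
    ∃ g, f = fsum p c g := by
  have hp0 : p ≠ 0 := hp.out.ne_zero
  have hmon : ∀ (v : σ →₀ ℕ) (b : Fin n → K), ∃ g, monomial v (∑ l, c l * b l ^ p) =
      fsum p c g := by
    intro v b
    obtain ⟨a, u, rfl⟩ := exists_div p v
    refine ⟨fun l a' => if a' = a then monomial u (b l) else 0, ?_⟩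
    ext w
    obtain ⟨a', u', rfl⟩ := exists_div p w
    rw [coeff_fsum, coeff_monomial]
    by_cases ha : a' = a
    · subst ha
      simp only [if_true, coeff_monomial]
      by_cases hu : u = u'
      · subst hu
        simp
      · rw [if_neg, Finset.sum_eq_zero]
        · intro l _
          rw [if_neg hu, zero_pow hp0, mul_zero]
        · intro h
          apply hu
          have h2 := add_left_cancel h
          ext i
          have h3 := congrArg (fun x : σ →₀ ℕ => x i) h2
          simpa [hp0] using h3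
    · rw [if_neg, Finset.sum_eq_zero]
      · intro l _
        rw [if_neg ha, coeff_zero, zero_pow hp0, mul_zero]
      · intro h
        apply ha
        funext i
        apply Fin.ext
        have h3 := congrArg (fun x : σ →₀ ℕ => x i % p) h
        simp only [Finsupp.add_apply, Finsupp.smul_apply, toE_apply, smul_eq_mul,
          Nat.add_mul_mod_self_left, Nat.mod_eq_of_lt (a i).2, Nat.mod_eq_of_lt (a' i).2] at h3
        exact h3.symm
  have hsum : ∀ S : Finset (σ →₀ ℕ), (∀ v ∈ S, ∃ b : Fin n → K, coeff v f = ∑ l, c l * b l ^ p) →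
      ∃ g, ∑ v ∈ S, monomial v (coeff v f) = fsum p c g := by
    intro S
    induction S using Finset.induction_on with
    | empty =>
      intro _
      refine ⟨fun _ _ => 0, ?_⟩
      rw [Finset.sum_empty]
      unfold fsum
      rw [Finset.sum_eq_zero]
      intro l _
      rw [Finset.sum_eq_zero]
      intro a _
      rw [zero_pow hp0, mul_zero]
    | insert v S hv ih =>
      intro h
      obtain ⟨g, hg⟩ := ih fun w hw => h w (Finset.mem_insert_of_mem hw)
      obtain ⟨b, hb⟩ := h v (Finset.mem_insert_self v S)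
      obtain ⟨g', hg'⟩ := hmon v b
      refine ⟨fun l a => g' l a + g l a, ?_⟩
      rw [fsum_add, Finset.sum_insert hv, hg, hb, hg']
  obtain ⟨g, hg⟩ := hsum f.support hf
  exact ⟨g, by rw [← hg]; exact f.as_sum⟩

end sum

section norm

variable {K σ : Type} [NormedField K] [IsUltrametricDist K] (p : ℕ) [hp : Fact p.Prime]
  [CharP K p] [Fintype σ] [DecidableEq σ]

theorem mw_smul (ρ : σ → ℝ≥0) (u : σ →₀ ℕ) (n : ℕ) : mw ρ (n • u) = mw ρ u ^ n := by
  induction n with
  | zero => rw [zero_smul, mw_zero, pow_zero]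
  | succ n ih => rw [succ_nsmul, mw_add, ih, pow_succ]

/-- (B) -/
theorem sepB {n : ℕ} (c : Fin n → K) {δ : ℝ} (hδ : 0 < δ)
    (hc : ∀ (a : Fin n → K) (i : Fin n), δ * ‖a i‖ ^ p ≤ ‖∑ j, c j * a j ^ p‖) (ρ : σ → ℝ≥0)
    (g : Fin n → (σ → Fin p) → MvPolynomial σ K) (l : Fin n) (a : σ → Fin p) :
    δ * (mw ρ (toE p a) : ℝ) * ((gp ρ).v (g l a)) ^ p ≤ (gp ρ).v (fsum p c g) := by
  obtain ⟨u, hu⟩ := gp_ex ρ (g l a)
  have h1 := gp_le ρ (fsum p c g) (toE p a + p • u)
  rw [coeff_fsum] at h1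
  refine le_trans ?_ h1
  rw [hu, mw_add, mw_smul, mul_pow]
  push_cast
  calc δ * (mw ρ (toE p a) : ℝ) * (‖coeff u (g l a)‖ ^ p * (mw ρ u : ℝ) ^ p)
      = (δ * ‖coeff u (g l a)‖ ^ p) * ((mw ρ (toE p a) : ℝ) * (mw ρ u : ℝ) ^ p) := by ring
    _ ≤ ‖∑ j, c j * coeff u (g j a) ^ p‖ * ((mw ρ (toE p a) : ℝ) * (mw ρ u : ℝ) ^ p) :=
        mul_le_mul_of_nonneg_right (hc (fun j => coeff u (g j a)) l) (by positivity)

end norm

section field

variable {K σ L : Type} [NormedField K] [IsUltrametricDist K] (p : ℕ) [hp : Fact p.Prime]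
  [CharP K p] [Fintype σ] [DecidableEq σ] [Field L] [Algebra K L]

omit [IsUltrametricDist K] hp [CharP K p] [Fintype σ] [DecidableEq σ] in
/-- Common denominators. -/
theorem sep_denom (w : Ber K L) (ι : MvPolynomial σ K →+* L) (hι : Function.Injective ι)
    (hd : ∀ (x : L) (ε : ℝ), 0 < ε → ∃ b c : MvPolynomial σ K, c ≠ 0 ∧
      w.v (x - ι b / ι c) < ε)
    {J : Type} (S : Finset J) (y : J → L) {ε : ℝ} (hε : 0 < ε) :
    ∃ (d : MvPolynomial σ K) (g : J → MvPolynomial σ K), d ≠ 0 ∧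
      ∀ j ∈ S, w.v (y j - ι (g j) / ι d) < ε := by
  classical
  induction S using Finset.induction_on with
  | empty => exact ⟨1, fun _ => 0, one_ne_zero, fun j hj => absurd hj (Finset.notMem_empty j)⟩
  | insert j S hj ih =>
    obtain ⟨d, g, hd0, h⟩ := ih
    obtain ⟨b, c, hc0, hbc⟩ := hd (y j) ε hε
    have hιd : ι d ≠ 0 := (map_ne_zero_iff ι hι).2 hd0
    have hιc : ι c ≠ 0 := (map_ne_zero_iff ι hι).2 hc0
    refine ⟨d * c, fun i => if i = j then b * d else g i * c, mul_ne_zero hd0 hc0, ?_⟩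
    intro i hi
    by_cases hij : i = j
    · subst hij
      have e : ι (b * d) / ι (d * c) = ι b / ι c := by
        rw [map_mul, map_mul]; field_simp
      simp only [if_true]
      rw [e]; exact hbc
    · have hiS : i ∈ S := (Finset.mem_insert.1 hi).resolve_left hij
      have e : ι (g i * c) / ι (d * c) = ι (g i) / ι d := by
        rw [map_mul, map_mul]; field_simp
      simp only [if_neg hij]
      rw [e]; exact h i hiS

/-- (C) -/
theorem sepC {n : ℕ} (c : Fin n → K) {δ : ℝ} (hδ : 0 < δ)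
    (hc : ∀ (a : Fin n → K) (i : Fin n), δ * ‖a i‖ ^ p ≤ ‖∑ j, c j * a j ^ p‖) {ρ : σ → ℝ≥0}
    (hρ : ∀ i, 0 < ρ i) (w : Ber K L) (ι : MvPolynomial σ K →+* L)
    (hιC : ∀ x : K, ι (C x) = algebraMap K L x) (hι : ∀ P, w.v (ι P) = (gp ρ).v P)
    (hd : ∀ (x : L) (ε : ℝ), 0 < ε → ∃ b c : MvPolynomial σ K, c ≠ 0 ∧
      w.v (x - ι b / ι c) < ε)
    (y : Fin n → (σ → Fin p) → L)
    (hy : ∑ l, ∑ a, ι (C (c l)) * ι (monomial (toE p a) 1) * y l a ^ p = 0) :
    ∀ l a, y l a = 0 := by
  have hinj : Function.Injective ι := by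
    rw [injective_iff_map_eq_zero]
    intro P hP
    rw [← gp_eq_zero hρ, ← hι, hP, w.zero]
  have hCL : CharP L p := charP_of_injective_algebraMap (algebraMap K L).injective p
  intro l0 a0
  by_contra hne
  have hpos : 0 < w.v (y l0 a0) := w.field_pos hne
  have hp0 : 0 < p := hp.out.pos
  -- a bound for the coefficients
  obtain ⟨B, hB⟩ : ∃ B : ℝ, B = 1 + ∑ l : Fin n, ∑ a : σ → Fin p,
      w.v (ι (C (c l)) * ι (monomial (toE p a) 1)) := ⟨_, rfl⟩
  have hBle : ∀ l a, w.v (ι (C (c l)) * ι (monomial (toE p a) 1)) ≤ B := by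
    intro l a
    have h1 : w.v (ι (C (c l)) * ι (monomial (toE p a) 1)) ≤
        ∑ a : σ → Fin p, w.v (ι (C (c l)) * ι (monomial (toE p a) 1)) :=
      Finset.single_le_sum (f := fun a => w.v (ι (C (c l)) * ι (monomial (toE p a) 1)))
        (fun a _ => w.nonneg _) (Finset.mem_univ a)
    have h2 : ∑ a : σ → Fin p, w.v (ι (C (c l)) * ι (monomial (toE p a) 1)) ≤
        ∑ l : Fin n, ∑ a : σ → Fin p, w.v (ι (C (c l)) * ι (monomial (toE p a) 1)) :=
      Finset.single_le_sum
        (f := fun l => ∑ a : σ → Fin p, w.v (ι (C (c l)) * ι (monomial (toE p a) 1)))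
        (fun l _ => Finset.sum_nonneg fun a _ => w.nonneg _) (Finset.mem_univ l)
    rw [hB]
    linarith
  have hB0 : 0 < B := by
    have : 0 ≤ ∑ l : Fin n, ∑ a : σ → Fin p, w.v (ι (C (c l)) * ι (monomial (toE p a) 1)) :=
      Finset.sum_nonneg fun l _ => Finset.sum_nonneg fun a _ => w.nonneg _
    rw [hB]; linarith
  obtain ⟨T, hT⟩ : ∃ T : ℝ, T = δ * (mw ρ (toE p a0) : ℝ) * w.v (y l0 a0) ^ p := ⟨_, rfl⟩
  have hmw : (0 : ℝ) < mw ρ (toE p a0) := by exact_mod_cast mw_pos hρ _
  have hT0 : 0 < T := by rw [hT]; positivity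
  -- choose `ε`
  obtain ⟨ε, hε0, hε1, hε2⟩ : ∃ ε : ℝ, 0 < ε ∧ ε ≤ w.v (y l0 a0) ∧ B * ε ^ p < T := by
    refine ⟨min (w.v (y l0 a0)) (min 1 (T / (2 * B))), ?_, min_le_left _ _, ?_⟩
    · exact lt_min hpos (lt_min one_pos (by positivity))
    · have h1 : min (w.v (y l0 a0)) (min 1 (T / (2 * B))) ≤ 1 :=
        (min_le_right _ _).trans (min_le_left _ _)
      have h2 : min (w.v (y l0 a0)) (min 1 (T / (2 * B))) ≤ T / (2 * B) :=
        (min_le_right _ _).trans (min_le_right _ _)
      have h0 : 0 ≤ min (w.v (y l0 a0)) (min 1 (T / (2 * B))) :=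
        le_min hpos.le (le_min zero_le_one (by positivity))
      have h3 : min (w.v (y l0 a0)) (min 1 (T / (2 * B))) ^ p ≤
          min (w.v (y l0 a0)) (min 1 (T / (2 * B))) := by
        calc _ ≤ min (w.v (y l0 a0)) (min 1 (T / (2 * B))) ^ 1 :=
              pow_le_pow_of_le_one h0 h1 hp0
          _ = _ := pow_one _
      calc B * min (w.v (y l0 a0)) (min 1 (T / (2 * B))) ^ p ≤ B * (T / (2 * B)) :=
            mul_le_mul_of_nonneg_left (h3.trans h2) hB0.le
        _ = T / 2 := by field_simp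
        _ < T := by linarith
  -- approximate
  obtain ⟨d, g, hd0, hg⟩ := sep_denom w ι hinj hd (Finset.univ : Finset (Fin n × (σ → Fin p)))
    (fun j => y j.1 j.2) hε0
  have hιd : ι d ≠ 0 := (map_ne_zero_iff ι hinj).2 hd0
  have hgd : ∀ l a, w.v (y l a - ι (g (l, a)) / ι d) < ε := fun l a => hg (l, a)
    (Finset.mem_univ _)
  have hval0 : w.v (ι (g (l0, a0)) / ι d) = w.v (y l0 a0) :=
    w.sub_eq ((hgd l0 a0).trans_le hε1)
  -- (B)
  have hBB := sepB p c hδ hc ρ (fun l a => g (l, a)) l0 a0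
  have hdp : 0 < w.v (ι d) := w.field_pos hιd
  have hid : ι (fsum p c fun l a => g (l, a)) / ι d ^ p =
      ∑ l, ∑ a, ι (C (c l)) * ι (monomial (toE p a) 1) * (ι (g (l, a)) / ι d) ^ p := by
    unfold fsum
    rw [map_sum, Finset.sum_div]
    apply Finset.sum_congr rfl
    intro l _
    rw [map_sum, Finset.sum_div]
    apply Finset.sum_congr rfl
    intro a _
    rw [map_mul, map_mul, map_pow, div_pow]
    ring
  have hsm : w.v (ι (fsum p c fun l a => g (l, a)) / ι d ^ p) < T := by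
    rw [hid]
    have h1 : ∑ l, ∑ a, ι (C (c l)) * ι (monomial (toE p a) 1) * (ι (g (l, a)) / ι d) ^ p =
        -∑ l, ∑ a, ι (C (c l)) * ι (monomial (toE p a) 1) *
          (y l a - ι (g (l, a)) / ι d) ^ p := by
      rw [eq_neg_iff_add_eq_zero, ← hy, ← Finset.sum_add_distrib]
      apply Finset.sum_congr rfl
      intro l _
      rw [← Finset.sum_add_distrib]
      apply Finset.sum_congr rfl
      intro a _
      rw [sub_pow_char]; ring
    rw [h1, w.neg]
    refine w.sum_lt _ _ hT0 fun l _ => w.sum_lt _ _ hT0 fun a _ => ?_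
    rw [w.mul, w.pow]
    calc w.v (ι (C (c l)) * ι (monomial (toE p a) 1)) * w.v (y l a - ι (g (l, a)) / ι d) ^ p
        ≤ B * ε ^ p := mul_le_mul (hBle l a)
          (pow_le_pow_left₀ (w.nonneg _) (hgd l a).le p) (pow_nonneg (w.nonneg _) p) hB0.le
      _ < T := hε2
  rw [w.field_div, w.pow, hι] at hsm
  rw [div_lt_iff₀ (pow_pos hdp p)] at hsm
  have h2 : w.v (y l0 a0) ^ p * w.v (ι d) ^ p = ((gp ρ).v (g (l0, a0))) ^ p := by
    rw [← hval0, w.field_div, hι, div_pow]
    field_simp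
  have h3 : T * w.v (ι d) ^ p = δ * (mw ρ (toE p a0) : ℝ) * ((gp ρ).v (g (l0, a0))) ^ p := by
    rw [hT, ← h2]; ring
  rw [h3] at hsm
  exact absurd hBB (not_le.2 hsm)

/-- (D) `p`-th powers of linearly independent elements are linearly independent. -/
theorem sepD [CompleteSpace K] {ρ : σ → ℝ≥0} (hρ : ∀ i, 0 < ρ i) (w : Ber K L)
    (ι : MvPolynomial σ K →+* L)
    (hιC : ∀ x : K, ι (C x) = algebraMap K L x) (hι : ∀ P, w.v (ι P) = (gp ρ).v P)
    (hd : ∀ (x : L) (ε : ℝ), 0 < ε → ∃ b c : MvPolynomial σ K, c ≠ 0 ∧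
      w.v (x - ι b / ι c) < ε)
    {J : Type} [Fintype J] (h : J → L)
    (hli : ∀ f : J → MvPolynomial σ K, ∑ j, ι (f j) * h j = 0 → ∀ j, f j = 0) :
    ∀ f : J → MvPolynomial σ K, ∑ j, ι (f j) * h j ^ p = 0 → ∀ j, f j = 0 := by
  classical
  have hCL : CharP L p := charP_of_injective_algebraMap (algebraMap K L).injective p
  have hp0 : p ≠ 0 := hp.out.ne_zero
  intro f hf
  -- basis of the span of the coefficients
  obtain ⟨n, c, hc, hS⟩ := exists_basisP p
    (Finset.univ.biUnion fun j => (f j).support.image fun v => coeff v (f j))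
  obtain ⟨δ, hδ, hδc⟩ := sepA p n c hc
  have hex : ∀ j, ∃ g, f j = fsum p c g := by
    intro j
    refine exists_fsum p c (f j) fun v hv => hS _ ?_
    exact Finset.mem_biUnion.2 ⟨j, Finset.mem_univ j, Finset.mem_image_of_mem _ hv⟩
  choose g hg using hex
  have hsum : ∑ l, ∑ a, ι (C (c l)) * ι (monomial (toE p a) 1) *
      (∑ j, ι (g j l a) * h j) ^ p = 0 := by
    rw [← hf]
    have h1 : ∀ l a, ι (C (c l)) * ι (monomial (toE p a) 1) * (∑ j, ι (g j l a) * h j) ^ p =
        ∑ j, ι (C (c l) * monomial (toE p a) 1 * g j l a ^ p) * h j ^ p := by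
      intro l a
      rw [sum_pow_char p, Finset.mul_sum]
      apply Finset.sum_congr rfl
      intro j _
      rw [map_mul, map_mul, map_pow, mul_pow]
      ring
    simp only [h1]
    have h2 : ∀ j, ι (f j) * h j ^ p =
        ∑ l, ∑ a, ι (C (c l) * monomial (toE p a) 1 * g j l a ^ p) * h j ^ p := by
      intro j
      conv_lhs => rw [hg j]
      unfold fsum
      rw [map_sum, Finset.sum_mul]
      apply Finset.sum_congr rfl
      intro l _
      rw [map_sum, Finset.sum_mul]
    simp only [h2]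
    refine Eq.trans ?_ Finset.sum_comm
    apply Finset.sum_congr rfl
    intro l _
    exact Finset.sum_comm
  have hz := sepC p c hδ hδc hρ w ι hιC hι hd (fun l a => ∑ j, ι (g j l a) * h j) hsum
  intro j
  rw [hg j]
  unfold fsum
  rw [Finset.sum_eq_zero]
  intro l _
  rw [Finset.sum_eq_zero]
  intro a _
  rw [hli (fun j => g j l a) (hz l a) j, zero_pow hp0, mul_zero]

end field

end Pool.Agent.TD
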